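import Pool.Agent.Helper37.Arb.Goals

/-!
Packet ARB-RSTACK (author helper37, MP_2b0227_gt): responses of `cross` and `stack S T`.
-/

namespace Pool.Agent.Helper82.Arb

open Pool.Agent.Helper36.SC Pool.Agent.Helper37.Arb Polynomial

theorem respCross : GoalRespCross := by
  intro x hx
  have hx1 : (1 : ℝ) + x ≠ 0 := by positivity
  have hM : ∀ v w : Unit, openMat true Tangle.cross.diag x v w = 1 + x := by
    intro v w
    simp [openMat, lap, stepU, stepO, fwd, bwd, Tangle.diag, Matrix.single]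
    change (0 : ℝ) + 1 + x = 1 + x
    ring
  refine ⟨?_, ?_⟩
  · have h1 : (openMat true Tangle.cross.diag x).det = 1 + x :=
      (Matrix.det_unique (n := Unit) (openMat true Tangle.cross.diag x)).trans (hM _ _)
    rw [h1]
    simp
  · intro s t
    refine ⟨fun _ => (s + x * t) / (1 + x), ?_, ?_, ?_⟩
    · funext v
      have h2 : (openMat true Tangle.cross.diag x).mulVec
          (fun _ => (s + x * t) / (1 + x)) v = (1 + x) * ((s + x * t) / (1 + x)) := by
        change ∑ w : Unit, openMat true Tangle.cross.diag x v w * ((s + x * t) / (1 + x)) = _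
        rw [Fintype.sum_unique, hM]
      rw [h2]
      change _ = (Pi.single () ((if true = true then (1 : ℝ) else x) * s) +
        Pi.single () ((if true = true then x else (1 : ℝ)) * t) : Unit → ℝ) v
      have hv : v = () := rfl
      rw [hv]
      simp
      field_simp
    · field_simp
    · field_simp

theorem respStack : GoalRespStack := by
  intro hM hD S T j₁ j₂ L₁ R₁ b₁ L₂ R₂ b₂ hV1 hV2 hS hT x hx
  obtain ⟨hL1, hR1, hb1, hr1⟩ := hV1 x hx
  obtain ⟨hL2, hR2, hb2, hr2⟩ := hV2 x hx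
  obtain ⟨hSd, hSs⟩ := hS x hx
  obtain ⟨hTd, hTs⟩ := hT x hx
  have hc1 : 0 < b₁ x + R₁ x := by positivity
  have hc2 : 0 < b₂ x + R₂ x := by positivity
  have hc : 0 < (R₁ x * b₂ x + b₁ x * L₂ x) + R₁ x * R₂ x := by positivity
  have hLe1 : L₁ x = R₁ x + (1 - x) * b₁ x := by linarith
  have hLe2 : L₂ x = R₂ x + (1 - x) * b₂ x := by linarith
  have hblock := hM S T x
  constructor
  · obtain ⟨h₁, e1, -, e1r⟩ := hSs 1 0
    obtain ⟨h₂, e2, e2r, -⟩ := hTs 0 1
    rw [mul_zero, Pi.single_zero, add_zero, mul_one] at e1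
    rw [mul_zero, Pi.single_zero, zero_add, mul_one] at e2
    have hd1 : (openMat true S.diag x).det ≠ 0 := by
      rw [hSd]; positivity
    have hd2 : (openMat true T.diag x).det ≠ 0 := by
      rw [hTd]; positivity
    have key := hD (openMat true S.diag x) (openMat true T.diag x)
      S.diag.l S.diag.r (T.diag.D.overNext T.diag.r) (T.diag.D.underNext T.diag.l)
      _ _ h₁ h₂ hd1 hd2 e1 e2
    have e3 : (openMat true (Tangle.stack S T).diag x).det = _ :=
      (congrArg Matrix.det hblock).trans key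
    rw [e3, hSd, hTd]
    have f1 : h₁ S.diag.r = b₁ x / (b₁ x + R₁ x) := by
      rw [eq_div_iff hc1.ne']; linarith
    have f2 : h₂ (T.diag.D.underNext T.diag.l) = x * b₂ x / (b₂ x + R₂ x) := by
      rw [eq_div_iff hc2.ne']; linarith
    rw [f1, f2, zpow_add₀ hx.ne']
    show _ = x ^ j₁ * x ^ j₂ * ((R₁ x * b₂ x + b₁ x * L₂ x) + R₁ x * R₂ x)
    rw [hLe2]
    field_simp
    ring
  · intro s t
    obtain ⟨g, hg⟩ : ∃ g : ℝ, ((R₁ x * b₂ x + b₁ x * L₂ x) + R₁ x * R₂ x) * g =
        (b₁ x + R₁ x) * L₂ x * s + x * b₂ x * R₁ x * t :=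
      ⟨_, mul_div_cancel₀ _ hc.ne'⟩
    obtain ⟨m, hm⟩ : ∃ m : ℝ, ((R₁ x * b₂ x + b₁ x * L₂ x) + R₁ x * R₂ x) * m =
        b₁ x * L₂ x * s + (b₂ x + R₂ x) * R₁ x * t :=
      ⟨_, mul_div_cancel₀ _ hc.ne'⟩
    obtain ⟨h₁, e1, e1l, e1r⟩ := hSs g t
    obtain ⟨h₂, e2, e2l, e2r⟩ := hTs s m
    rw [hLe2] at hg hm hc e2l
    rw [hLe1] at e1l
    have v1 : h₁ S.diag.r = m := by
      have : (b₁ x + R₁ x) * h₁ S.diag.r = (b₁ x + R₁ x) * m := by
        rw [e1r]
        apply mul_left_cancel₀ hc.ne'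
        linear_combination (b₁ x) * hg - (b₁ x + R₁ x) * hm
      exact mul_left_cancel₀ hc1.ne' this
    have v2 : h₂ (T.diag.D.underNext T.diag.l) = g := by
      have : (b₂ x + R₂ x) * h₂ (T.diag.D.underNext T.diag.l) = (b₂ x + R₂ x) * g := by
        rw [e2l]
        apply mul_left_cancel₀ hc.ne'
        linear_combination (x * b₂ x) * hm - (b₂ x + R₂ x) * hg
      exact mul_left_cancel₀ hc2.ne' this
    refine ⟨Sum.elim h₁ h₂, ?_, ?_, ?_⟩
    · have e4 : (openMat true (Tangle.stack S T).diag x).mulVec (Sum.elim h₁ h₂) =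
          (Matrix.fromBlocks (openMat true S.diag x)
            (-Matrix.single S.diag.l (T.diag.D.underNext T.diag.l) (fwd S.diag.D x S.diag.l))
            (-Matrix.single (T.diag.D.overNext T.diag.r) S.diag.r
              (bwd T.diag.D x (T.diag.D.overNext T.diag.r)))
            (openMat true T.diag x)).mulVec (Sum.elim h₁ h₂) :=
        congrArg (fun A : Matrix (S.diag.V ⊕ T.diag.V) (S.diag.V ⊕ T.diag.V) ℝ =>
          A.mulVec (Sum.elim h₁ h₂)) hblock
      refine e4.trans ?_
      rw [Matrix.fromBlocks_mulVec, Sum.elim_comp_inl, Sum.elim_comp_inr, e1, e2,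
        Matrix.neg_mulVec, Matrix.neg_mulVec, Matrix.single_mulVec, Matrix.single_mulVec, v1, v2]
      have hov : (Tangle.stack S T).diag.D.overNext (Tangle.stack S T).diag.r =
          Sum.inl (S.diag.D.overNext S.diag.r) := by
        change (Equiv.sumCongr S.diag.D.overNext T.diag.D.overNext)
          (Equiv.swap (Sum.inl S.diag.r) (Sum.inr T.diag.r) (Sum.inr T.diag.r)) = _
        rw [Equiv.swap_apply_right]
        rfl
      rw [hov]
      show _ = (Pi.single (Sum.inr T.diag.l) (fwd T.diag.D x T.diag.l * s) +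
        Pi.single (Sum.inl (S.diag.D.overNext S.diag.r))
          (bwd S.diag.D x (S.diag.D.overNext S.diag.r) * t) : S.diag.V ⊕ T.diag.V → ℝ)
      funext z
      rcases z with z | z
      · simp only [Sum.elim_inl, Pi.add_apply, Pi.neg_apply, Pi.single_apply,
          Function.update_apply, Pi.zero_apply, Sum.inl.injEq, reduceCtorEq, if_false, zero_add]
        ring
      · simp only [Sum.elim_inr, Pi.add_apply, Pi.neg_apply, Pi.single_apply,
          Function.update_apply, Pi.zero_apply, Sum.inr.injEq, reduceCtorEq, if_false, add_zero]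
        ring
    · have hun : (Tangle.stack S T).diag.D.underNext (Tangle.stack S T).diag.l =
          Sum.inl (S.diag.D.underNext S.diag.l) := by
        change (Equiv.sumCongr S.diag.D.underNext T.diag.D.underNext)
          (Equiv.swap (Sum.inl S.diag.l) (Sum.inr T.diag.l) (Sum.inr T.diag.l)) = _
        rw [Equiv.swap_apply_right]
        rfl
      rw [hun]
      show ((R₁ x * b₂ x + b₁ x * L₂ x) + R₁ x * R₂ x) *
        h₁ (S.diag.D.underNext S.diag.l) = (L₁ x * L₂ x) * s +
          x * (R₁ x * b₂ x + b₁ x * L₂ x) * t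
      rw [hLe1, hLe2]
      apply mul_left_cancel₀ hc1.ne'
      linear_combination ((R₁ x * b₂ x + b₁ x * (R₂ x + (1 - x) * b₂ x)) + R₁ x * R₂ x) * e1l
        + (R₁ x + (1 - x) * b₁ x) * hg
    · show ((R₁ x * b₂ x + b₁ x * L₂ x) + R₁ x * R₂ x) *
        h₂ T.diag.r = (R₁ x * b₂ x + b₁ x * L₂ x) * s + (R₁ x * R₂ x) * t
      rw [hLe2]
      apply mul_left_cancel₀ hc2.ne'
      linear_combination ((R₁ x * b₂ x + b₁ x * (R₂ x + (1 - x) * b₂ x)) + R₁ x * R₂ x) * e2r
        + (R₂ x) * hm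

end Pool.Agent.Helper82.Arb
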